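import Pool.Agent.Lib.helper1.Cs1

set_option autoImplicit false

namespace Pool.Agent.Results.MP_e6c168_lc.Root

open Finset

/-- `P n d` is the party holding contract `n` on day `d`; on day `N - 1` it is the owner `n` -/
def Fast {N : ℕ} (P : Fin N → Equiv.Perm (Fin N)) : Prop :=
  ∀ n d : Fin N, d.val + 1 = N → P n d = n

/-- the envelopes: triples `(d, i, j)` such that some contract is at `i` on day `d` and at `j` on
day `d + 1 ≤ N - 1` -/
def sends {N : ℕ} (P : Fin N → Equiv.Perm (Fin N)) : Finset (Fin N × Fin N × Fin N) :=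
  {e | ∃ n d' : Fin N, d'.val = e.1.val + 1 ∧ P n e.1 = e.2.1 ∧ P n d' = e.2.2}

theorem result :
    (∀ N, 2 ≤ N → ∃ P : Fin N → Equiv.Perm (Fin N), Fast P ∧
      ∀ i, #{e ∈ sends P | e.2.1 = i} ≤ 2 * Nat.sqrt N + 13) ∧
    ∀ c : ℝ, 0 < c → ∃ N, 2 ≤ N ∧ ∃ P : Fin N → Equiv.Perm (Fin N), Fast P ∧
      ∀ i, (#{e ∈ sends P | e.2.1 = i} : ℝ) < c * N :=
  ⟨fun _ => Pool.Agent.Lib.helper1.Cs.small, Pool.Agent.Lib.helper1.Cs.neg⟩

end Pool.Agent.Results.MP_e6c168_lc.Root
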